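import Pool.Agent.Q100.Prod.Mut

set_option autoImplicit false

/-!
The Sylow graph of a mutually permutable product `G = AB` of finite groups is contained in the
union of the Sylow graphs of `A` and `B` and of the graph `Γ(A,B)`.
-/

namespace Pool.Agent.Results.MP_b4773a_al.Inclusion

open Pool.Agent.Q100.Prod
open scoped Pointwise

/-- `(p,q)` is an edge of the Sylow graph of `X`: `p` and `q` are primes dividing `|X|` and `q`
divides `|N_X(P) : P C_X(P)|` for some Sylow `p`-subgroup `P` of `X`. -/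
def SylowEdge (X : Type) [Group X] (p q : ℕ) : Prop :=
  p.Prime ∧ q.Prime ∧ p ∣ Nat.card X ∧ q ∣ Nat.card X ∧
    ∃ P : Sylow p X, q ∣ ((P : Subgroup X) ⊔ Subgroup.centralizer (P : Set X)).relIndex
      (Subgroup.normalizer (P : Set X))

/-- `(p,q)` is an edge of `Γ(A,B)`. -/
def GammaEdge {G : Type} [Group G] (A B : Subgroup G) (p q : ℕ) : Prop :=
  p.Prime ∧ q.Prime ∧
    ((p ∣ Nat.card A ∧ q ∣ Nat.card B ∧ q ∣ p - 1) ∨
      (p ∣ Nat.card B ∧ q ∣ Nat.card A ∧ q ∣ p - 1))

/-- `G = AB` is a mutually permutable product. -/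
def MutuallyPermutableProduct {G : Type} [Group G] (A B : Subgroup G) : Prop :=
  (∀ g : G, ∃ a ∈ A, ∃ b ∈ B, g = a * b) ∧
    (∀ U : Subgroup G, U ≤ B → (A : Set G) * (U : Set G) = (U : Set G) * (A : Set G)) ∧
    (∀ V : Subgroup G, V ≤ A → (B : Set G) * (V : Set G) = (V : Set G) * (B : Set G))

section Lemmas

variable {G : Type} [Group G] [Finite G]

/-- If all elements of `p`-power order of `N` lie in `K` then `p` does not divide `|N : K|`. -/
theorem not_dvd_relIndex (p : ℕ) [hp : Fact p.Prime]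
    (K N : Subgroup G) (h : ∀ x ∈ N, (∃ k : ℕ, x ^ p ^ k = 1) → x ∈ K) :
    ¬ p ∣ K.relIndex N := by
  intro hdvd
  obtain ⟨R⟩ : Nonempty (Sylow p N) := inferInstance
  have hRK : (R : Subgroup N) ≤ K.subgroupOf N := by
    intro r hr
    obtain ⟨k, hk⟩ := R.isPGroup' ⟨r, hr⟩
    rw [Subgroup.mem_subgroupOf]
    refine h r r.2 ⟨k, ?_⟩
    have := congrArg (fun z : (R : Subgroup N) => ((z : N) : G)) hk
    simpa using this
  have h1 : ¬ p ∣ (R : Subgroup N).index := R.not_dvd_index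
  exact h1 (hdvd.trans (Subgroup.index_dvd_of_le hRK))

/-- An element of `p`-power order and of `q`-power order is trivial. -/
theorem eq_one_of_pows {K : Type} [Group K] (p q : ℕ) (hpq : p.Coprime q) (x : K)
    (h1 : ∃ k : ℕ, x ^ p ^ k = 1) (h2 : ∃ k : ℕ, x ^ q ^ k = 1) : x = 1 := by
  obtain ⟨k, hk⟩ := h1
  obtain ⟨l, hl⟩ := h2
  have d1 := orderOf_dvd_of_pow_eq_one hk
  have d2 := orderOf_dvd_of_pow_eq_one hl
  have hc : (p ^ k).Coprime (q ^ l) := Nat.Coprime.pow k l hpq
  exact orderOf_eq_one_iff.1 (Nat.eq_one_of_dvd_coprimes hc d1 d2)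

omit [Finite G] in
theorem sup_centralizer (P : Subgroup G) (y : G)
    (hy : y ∈ P ⊔ Subgroup.centralizer (P : Set G)) :
    ∃ u ∈ P, ∃ c ∈ Subgroup.centralizer (P : Set G), y = u * c := by
  have hperm : ∀ c ∈ Subgroup.centralizer (P : Set G), ∀ u ∈ P,
      ∃ u' ∈ P, ∃ c' ∈ Subgroup.centralizer (P : Set G), c * u = u' * c' := by
    intro c hc u hu
    exact ⟨u, hu, c, hc, (Subgroup.mem_centralizer_iff.1 hc u hu).symm⟩
  have hle : P ⊔ Subgroup.centralizer (P : Set G) ≤
      prodSub P (Subgroup.centralizer (P : Set G)) hperm :=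
    sup_le le_prodSub_left le_prodSub_right
  exact hle hy

/-- If `q` does not divide `|N(P) : P C(P)|` then every element of `q`-power order of `N(P)`
centralises the `p`-group `P`. -/
theorem centralizes_of_not_dvd {p q : ℕ} (hp : p.Prime) (hq : q.Prime) (hqp : q ≠ p)
    (P : Subgroup G) (hPp : IsPGroup p P)
    (h : ¬ q ∣ (P ⊔ Subgroup.centralizer (P : Set G)).relIndex (Subgroup.normalizer (P : Set G)))
    (x : G) (hx : x ∈ Subgroup.normalizer (P : Set G)) (hxq : ∃ k : ℕ, x ^ q ^ k = 1) :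
    ∀ y ∈ P, x * y = y * x := by
  set N := Subgroup.normalizer (P : Set G) with hN
  set C := Subgroup.centralizer (P : Set G) with hC
  have hnorm : ((P ⊔ C).subgroupOf N).Normal := by
    constructor
    rintro ⟨y, hyN⟩ hy ⟨n, hn⟩
    rw [Subgroup.mem_subgroupOf] at hy ⊢
    change y ∈ P ⊔ C at hy
    change n * y * n⁻¹ ∈ P ⊔ C
    obtain ⟨u, hu, c, hc, rfl⟩ := sup_centralizer P y hy
    have h1 : n * (u * c) * n⁻¹ = (n * u * n⁻¹) * (n * c * n⁻¹) := by group
    rw [h1]
    have h2 : n * u * n⁻¹ ∈ P := (Subgroup.mem_normalizer_iff.1 hn u).1 hu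
    have h3 : n * c * n⁻¹ ∈ C := by
      rw [hC, Subgroup.mem_centralizer_iff]
      intro z hz
      have h4 : n⁻¹ * z * n ∈ P := by
        have := (Subgroup.mem_normalizer_iff.1 (inv_mem hn) z).1 hz
        simpa using this
      have h5 := Subgroup.mem_centralizer_iff.1 hc _ h4
      calc z * (n * c * n⁻¹) = n * ((n⁻¹ * z * n) * c) * n⁻¹ := by group
        _ = n * (c * (n⁻¹ * z * n)) * n⁻¹ := by rw [h5]
        _ = n * c * n⁻¹ * z := by group
    exact Subgroup.mul_mem _ ((le_sup_left : P ≤ P ⊔ C) h2) ((le_sup_right : C ≤ P ⊔ C) h3)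
  -- `x` lies in `P C(P)`
  have hxK : x ∈ P ⊔ C := by
    obtain ⟨k, hk⟩ := hxq
    have h1 : orderOf (((⟨x, hx⟩ : N) : N ⧸ (P ⊔ C).subgroupOf N)) ∣ q ^ k := by
      rw [orderOf_dvd_iff_pow_eq_one, ← QuotientGroup.mk_pow, QuotientGroup.eq_one_iff,
        Subgroup.mem_subgroupOf]
      change (((⟨x, hx⟩ : N) ^ q ^ k : N) : G) ∈ P ⊔ C
      have : (((⟨x, hx⟩ : N) ^ q ^ k : N) : G) = 1 := hk
      rw [this]
      exact one_mem _
    have h2 : orderOf (((⟨x, hx⟩ : N) : N ⧸ (P ⊔ C).subgroupOf N)) ∣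
        (P ⊔ C).relIndex N := orderOf_dvd_natCard _
    have h3 : Nat.Coprime (q ^ k) ((P ⊔ C).relIndex N) :=
      Nat.Coprime.pow_left k ((Nat.Prime.coprime_iff_not_dvd hq).2 h)
    have h4 := Nat.eq_one_of_dvd_coprimes h3 h1 h2
    rw [orderOf_eq_one_iff, QuotientGroup.eq_one_iff, Subgroup.mem_subgroupOf] at h4
    exact h4
  obtain ⟨u, hu, c, hc, rfl⟩ := sup_centralizer P x hxK
  -- `u` centralises `P`
  have hcc : ∀ z ∈ P, z * c = c * z := fun z hz => Subgroup.mem_centralizer_iff.1 hc z hz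
  obtain ⟨k, hk⟩ := hxq
  have h1 : (u * c) ^ q ^ k = u ^ q ^ k * c ^ q ^ k := (show Commute u c from hcc u hu).mul_pow _
  rw [h1] at hk
  have h2 : ∀ z ∈ P, Commute (u ^ q ^ k) z := by
    intro z hz
    have h3 : u ^ q ^ k = (c ^ q ^ k)⁻¹ := eq_inv_of_mul_eq_one_left hk
    rw [h3]
    exact ((show Commute z c from hcc z hz).pow_right _).inv_right.symm
  obtain ⟨l, hl⟩ := hPp ⟨u, hu⟩
  have hl' : u ^ p ^ l = 1 := by simpa using congrArg Subtype.val hl
  have hcop : Nat.Coprime (q ^ k) (orderOf u) := by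
    have : orderOf u ∣ p ^ l := orderOf_dvd_of_pow_eq_one hl'
    exact Nat.Coprime.coprime_dvd_right this
      (Nat.Coprime.pow k l ((Nat.coprime_primes hq hp).2 hqp))
  obtain ⟨m, hm⟩ := exists_pow_eq_self_of_coprime hcop
  intro y hy
  have h3 : Commute u y := by
    rw [← hm]
    exact (h2 y hy).pow_left m
  have h4 : Commute c y := (show Commute y c from hcc y hy).symm
  exact h3.mul_left h4

end Lemmas

section Main

variable {G : Type} [Group G] [Finite G]

/-- If `(p,q)` is not an edge of the Sylow graph of `A`, then every element of `q`-power order of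
`A` normalising the Sylow `p`-subgroup `P ∩ A` of `A` centralises it. -/
theorem centralizes_left (A : Subgroup G) {p q : ℕ} (hp : p.Prime) (hq : q.Prime) (hqp : q ≠ p)
    (h : ¬ SylowEdge A p q) (P : Subgroup G) (hPp : IsPGroup p P) (hPA : IsSylIn p P A)
    (x : G) (hxA : x ∈ A) (hx : x ∈ Subgroup.normalizer (P : Set G))
    (hxq : ∃ k : ℕ, x ^ q ^ k = 1) :
    ∀ y ∈ P ⊓ A, x * y = y * x := by
  have : Fact p.Prime := ⟨hp⟩
  by_cases hpA : p ∣ Nat.card A
  swap
  · -- `P ∩ A` is trivial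
    intro y hy
    have h1 : Nat.card (P ⊓ A : Subgroup G) = 1 := by
      rw [hPA, Nat.factorization_eq_zero_of_not_dvd hpA, pow_zero]
    have h2 : P ⊓ A = ⊥ := Subgroup.card_eq_one.1 h1
    rw [h2, Subgroup.mem_bot] at hy
    rw [hy, mul_one, one_mul]
  by_cases hqA : q ∣ Nat.card A
  swap
  · -- `x` is trivial
    have h1 : x = 1 := by
      obtain ⟨k, hk⟩ := hxq
      have h2 : orderOf (⟨x, hxA⟩ : A) ∣ q ^ k := by
        apply orderOf_dvd_of_pow_eq_one
        ext1
        exact hk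
      have h3 : orderOf (⟨x, hxA⟩ : A) ∣ Nat.card A := orderOf_dvd_natCard _
      have h4 := Nat.eq_one_of_dvd_coprimes
        (Nat.Coprime.pow_left k ((Nat.Prime.coprime_iff_not_dvd hq).2 hqA)) h2 h3
      rw [orderOf_eq_one_iff] at h4
      exact congrArg Subtype.val h4
    intro y _
    rw [h1, mul_one, one_mul]
  -- the Sylow subgroup of `A`
  have hcard : Nat.card ((P ⊓ A).subgroupOf A) = p ^ (Nat.card A).factorization p := by
    rw [← hPA]
    exact Nat.card_congr (Subgroup.subgroupOfEquivOfLe inf_le_right).toEquiv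
  let R : Sylow p A := Sylow.ofCard ((P ⊓ A).subgroupOf A) hcard
  have hRdef : (R : Subgroup A) = (P ⊓ A).subgroupOf A := rfl
  have hnd : ¬ q ∣ ((R : Subgroup A) ⊔ Subgroup.centralizer ((R : Subgroup A) : Set A)).relIndex
      (Subgroup.normalizer ((R : Subgroup A) : Set A)) := by
    intro hd
    exact h ⟨hp, hq, hpA, hqA, R, hd⟩
  have hmem : ∀ y : A, y ∈ (R : Subgroup A) ↔ (y : G) ∈ P := by
    intro y
    rw [hRdef, Subgroup.mem_subgroupOf, Subgroup.mem_inf]
    exact ⟨fun hy => hy.1, fun hy => ⟨hy, y.2⟩⟩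
  have hxN : (⟨x, hxA⟩ : A) ∈ Subgroup.normalizer ((R : Subgroup A) : Set A) := by
    rw [Subgroup.mem_normalizer_iff]
    intro y
    have h1 := Subgroup.mem_normalizer_iff.1 hx (y : G)
    change y ∈ (R : Subgroup A) ↔ (⟨x, hxA⟩ : A) * y * (⟨x, hxA⟩ : A)⁻¹ ∈ (R : Subgroup A)
    rw [hmem, hmem]
    exact h1
  have hxq' : ∃ k : ℕ, (⟨x, hxA⟩ : A) ^ q ^ k = 1 := by
    obtain ⟨k, hk⟩ := hxq
    exact ⟨k, by ext1; exact hk⟩
  have key := centralizes_of_not_dvd hp hq hqp (R : Subgroup A) R.isPGroup' hnd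
    (⟨x, hxA⟩ : A) hxN hxq'
  intro y hy
  obtain ⟨hyP, hyA⟩ := Subgroup.mem_inf.1 hy
  have h1 := key ⟨y, hyA⟩ ((hmem _).2 hyP)
  exact congrArg Subtype.val h1

/-- A `q`-element of `A` normalising the prefactorised Sylow subgroup `P` centralises `P`. -/
theorem centralizes_all {A B : Subgroup G} (hAB : PermSub A B) {p q : ℕ} (hp : p.Prime)
    (hq : q.Prime) (hqp : q ≠ p) (h : ¬ SylowEdge A p q) (hΓ : ¬ GammaEdge A B p q)
    (P : Subgroup G) (hPp : IsPGroup p P) (hPA : IsSylIn p P A) (hPB : IsSylIn p P B)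
    (hP : ∀ x ∈ P, ∃ u ∈ P ⊓ A, ∃ v ∈ P ⊓ B, x = u * v)
    (x : G) (hxA : x ∈ A) (hx : x ∈ Subgroup.normalizer (P : Set G))
    (hxq : ∃ k : ℕ, x ^ q ^ k = 1) : ∀ y ∈ P, x * y = y * x := by
  have hqF : Fact q.Prime := ⟨hq⟩
  have h1 := centralizes_left A hp hq hqp h P hPp hPA x hxA hx hxq
  have h2 : ∀ y ∈ P ⊓ B, x * y = y * x := by
    by_cases hqd : q ∣ p - 1
    swap
    · exact centralizes_other hAB hp hqp hqd P hPp x hxA
        (fun z hz => (Subgroup.mem_normalizer_iff.1 hx z).1 hz) hxq h1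
    · by_cases hpB : p ∣ Nat.card B
      · by_cases hqA : q ∣ Nat.card A
        · exact absurd ⟨hp, hq, Or.inr ⟨hpB, hqA, hqd⟩⟩ hΓ
        · -- `x` is trivial
          have h3 : x = 1 := by
            obtain ⟨k, hk⟩ := hxq
            have h2 : orderOf (⟨x, hxA⟩ : A) ∣ q ^ k := by
              apply orderOf_dvd_of_pow_eq_one
              ext1
              exact hk
            have h3 : orderOf (⟨x, hxA⟩ : A) ∣ Nat.card A := orderOf_dvd_natCard _
            have h4 := Nat.eq_one_of_dvd_coprimes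
              (Nat.Coprime.pow_left k ((Nat.Prime.coprime_iff_not_dvd hq).2 hqA)) h2 h3
            rw [orderOf_eq_one_iff] at h4
            exact congrArg Subtype.val h4
          intro y _
          rw [h3, mul_one, one_mul]
      · intro y hy
        have h3 : Nat.card (P ⊓ B : Subgroup G) = 1 := by
          rw [hPB, Nat.factorization_eq_zero_of_not_dvd hpB, pow_zero]
        have h4 : P ⊓ B = ⊥ := Subgroup.card_eq_one.1 h3
        rw [h4, Subgroup.mem_bot] at hy
        rw [hy, mul_one, one_mul]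
  intro y hy
  obtain ⟨u, hu, v, hv, rfl⟩ := hP y hy
  calc x * (u * v) = (x * u) * v := by group
    _ = u * (x * v) := by rw [h1 u hu]; group
    _ = u * v * x := by rw [h2 v hv]; group

theorem gamma_symm {A B : Subgroup G} {p q : ℕ} (h : GammaEdge B A p q) : GammaEdge A B p q :=
  ⟨h.1, h.2.1, h.2.2.symm⟩

/-- `N_G(P)` is generated by its intersections with `A` and `B`, hence its `q`-elements centralise
`P`. -/
theorem all_centralize {A B : Subgroup G} (hG : IsProd A B) (hAB : PermSub A B)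
    (hBA : PermSub B A) {p q : ℕ} (hp : p.Prime) (hq : q.Prime) (hqp : q ≠ p)
    (hA : ¬ SylowEdge A p q) (hB : ¬ SylowEdge B p q) (hΓ : ¬ GammaEdge A B p q)
    (P : Sylow p G) (hPA : IsSylIn p (P : Subgroup G) A) (hPB : IsSylIn p (P : Subgroup G) B)
    (hP : ∀ x ∈ P, ∃ u ∈ (P : Subgroup G) ⊓ A, ∃ v ∈ (P : Subgroup G) ⊓ B, x = u * v) :
    ¬ q ∣ ((P : Subgroup G) ⊔ Subgroup.centralizer ((P : Subgroup G) : Set G)).relIndex
      (Subgroup.normalizer ((P : Subgroup G) : Set G)) := by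
  have hpF : Fact p.Prime := ⟨hp⟩
  have hqF : Fact q.Prime := ⟨hq⟩
  set N := Subgroup.normalizer ((P : Subgroup G) : Set G) with hN
  set C := Subgroup.centralizer ((P : Subgroup G) : Set G) with hC
  have hprod : IsProd (A.subgroupOf N) (B.subgroupOf N) := by
    rintro ⟨x, hx⟩
    obtain ⟨a, ha, b, hb, e⟩ := normalizer_factor hG hAB hBA P hP x hx
    obtain ⟨ha1, ha2⟩ := Subgroup.mem_inf.1 ha
    obtain ⟨hb1, hb2⟩ := Subgroup.mem_inf.1 hb
    exact ⟨⟨a, ha2⟩, ha1, ⟨b, hb2⟩, hb1, Subtype.ext e⟩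
  obtain ⟨Q, -, -, hQ⟩ := exists_prefactorised hprod q
  -- every element of `Q` centralises `P`
  have hQC : (Q : Subgroup N) ≤ ((P : Subgroup G) ⊔ C).subgroupOf N := by
    intro z hz
    obtain ⟨u, hu, v, hv, rfl⟩ := hQ z hz
    obtain ⟨hu1, hu2⟩ := Subgroup.mem_inf.1 hu
    obtain ⟨hv1, hv2⟩ := Subgroup.mem_inf.1 hv
    have hpow : ∀ w : N, w ∈ (Q : Subgroup N) → ∃ k : ℕ, (w : G) ^ q ^ k = 1 := by
      intro w hw
      obtain ⟨k, hk⟩ := Q.isPGroup' ⟨w, hw⟩
      refine ⟨k, ?_⟩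
      have := congrArg (fun z : (Q : Subgroup N) => ((z : N) : G)) hk
      simpa using this
    have h1 := centralizes_all hAB hp hq hqp hA hΓ (P : Subgroup G) P.isPGroup' hPA hPB hP
      (u : G) hu2 u.2 (hpow u hu1)
    have h2 := centralizes_all hBA hp hq hqp hB (fun h => hΓ (gamma_symm h)) (P : Subgroup G)
      P.isPGroup' hPB hPA (fun x hx => by
        obtain ⟨u, hu, v, hv, e⟩ := hP x⁻¹ (inv_mem hx)
        exact ⟨v⁻¹, inv_mem hv, u⁻¹, inv_mem hu, by rw [← mul_inv_rev, ← e, inv_inv]⟩)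
      (v : G) hv2 v.2 (hpow v hv1)
    rw [Subgroup.mem_subgroupOf]
    apply (le_sup_right : C ≤ (P : Subgroup G) ⊔ C)
    change (u : G) * (v : G) ∈ C
    rw [hC, Subgroup.mem_centralizer_iff]
    intro y hy
    calc y * ((u : G) * v) = (y * u) * v := by group
      _ = u * (y * v) := by rw [← h1 y hy]; group
      _ = u * v * y := by rw [← h2 y hy]; group
  intro hd
  exact Q.not_dvd_index (hd.trans (Subgroup.index_dvd_of_le hQC))

/-- Edges of the Sylow graph can be tested on any Sylow subgroup. -/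
theorem sylow_indep {p q : ℕ} (hp : p.Prime) (P Q : Sylow p G)
    (h : q ∣ ((P : Subgroup G) ⊔ Subgroup.centralizer ((P : Subgroup G) : Set G)).relIndex
      (Subgroup.normalizer ((P : Subgroup G) : Set G))) :
    q ∣ ((Q : Subgroup G) ⊔ Subgroup.centralizer ((Q : Subgroup G) : Set G)).relIndex
      (Subgroup.normalizer ((Q : Subgroup G) : Set G)) := by
  have : Fact p.Prime := ⟨hp⟩
  obtain ⟨g, rfl⟩ := MulAction.exists_smul_eq G P Q
  have h1 : ((g • P : Sylow p G) : Subgroup G) = (P : Subgroup G).map (MulAut.conj g).toMonoidHom :=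
    rfl
  have hc : Subgroup.centralizer (((g • P : Sylow p G) : Subgroup G) : Set G) =
      (Subgroup.centralizer ((P : Subgroup G) : Set G)).map (MulAut.conj g).toMonoidHom := by
    ext x
    rw [Subgroup.mem_centralizer_iff, h1]
    constructor
    · intro hx
      refine ⟨g⁻¹ * x * g, ?_, by simp [mul_assoc]⟩
      rw [SetLike.mem_coe, Subgroup.mem_centralizer_iff]
      intro y hy
      have := hx (g * y * g⁻¹) ⟨y, hy, by simp⟩
      calc y * (g⁻¹ * x * g) = g⁻¹ * ((g * y * g⁻¹) * x) * g := by group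
        _ = g⁻¹ * (x * (g * y * g⁻¹)) * g := by rw [this]
        _ = g⁻¹ * x * g * y := by group
    · rintro ⟨z, hz, rfl⟩ _ ⟨y, hy, rfl⟩
      rw [SetLike.mem_coe, Subgroup.mem_centralizer_iff] at hz
      have := hz y hy
      change (MulAut.conj g y) * (MulAut.conj g z) = (MulAut.conj g z) * (MulAut.conj g y)
      rw [← map_mul, ← map_mul, this]
  have hn : Subgroup.normalizer (((g • P : Sylow p G) : Subgroup G) : Set G) =
      (Subgroup.normalizer ((P : Subgroup G) : Set G)).map (MulAut.conj g).toMonoidHom := by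
    rw [h1]
    exact (Subgroup.map_equiv_normalizer_eq (P : Subgroup G) (MulAut.conj g)).symm
  rw [hc, hn, h1, ← Subgroup.map_sup]
  rw [Subgroup.relIndex_map_map_of_injective _ _ (MulAut.conj g).injective]
  exact h

end Main

theorem result (G : Type) [Group G] [Finite G] (A B : Subgroup G)
    (h : MutuallyPermutableProduct A B) :
    (∀ p : ℕ, p.Prime → p ∣ Nat.card G → p ∣ Nat.card A ∨ p ∣ Nat.card B) ∧
    (∀ p q : ℕ, SylowEdge G p q → SylowEdge A p q ∨ SylowEdge B p q ∨ GammaEdge A B p q) := by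
  obtain ⟨hG, hAB', hBA'⟩ := h
  have hAB := permSub_of hAB'
  have hBA := permSub_of hBA'
  constructor
  · intro p hp hd
    have h1 := IsProd.card hG
    exact (Nat.Prime.dvd_mul hp).1 (h1 ▸ dvd_mul_of_dvd_left hd _)
  · rintro p q ⟨hp, hq, hpG, hqG, P, hP⟩
    by_contra hcon
    push Not at hcon
    obtain ⟨h1, h2, h3⟩ := hcon
    have hpF : Fact p.Prime := ⟨hp⟩
    have hqp : q ≠ p := by
      rintro rfl
      have h4 : (P : Subgroup G).relIndex (Subgroup.normalizer ((P : Subgroup G) : Set G)) ∣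
          (P : Subgroup G).index := Subgroup.relIndex_dvd_index_of_le Subgroup.le_normalizer
      have h5 : ((P : Subgroup G) ⊔ Subgroup.centralizer ((P : Subgroup G) : Set G)).relIndex
          (Subgroup.normalizer ((P : Subgroup G) : Set G)) ∣
          (P : Subgroup G).relIndex (Subgroup.normalizer ((P : Subgroup G) : Set G)) :=
        Subgroup.relIndex_dvd_of_le_left _ le_sup_left
      exact P.not_dvd_index (hP.trans (h5.trans h4))
    obtain ⟨Q, hQA, hQB, hQ⟩ := exists_prefactorised hG p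
    exact all_centralize hG hAB hBA hp hq hqp h1 h2 h3 Q hQA hQB hQ (sylow_indep hp P Q hP)

end Pool.Agent.Results.MP_b4773a_al.Inclusion
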